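import Pool.Agent.R629.NF.Conc6

/-!
# MP_94f623_nt: Serre's conjecture over imaginary quadratic fields and values on the edge

Let `K` be an imaginary quadratic field of class number one, `Ω` an algebraic closure of `ℚ` containing
`K`, `G` the absolute Galois group of `K` and `k` an algebraic closure of `𝔽_p`; let `θ : k → ℂ` be
injective with `|θ(z)| = 1` for `z ≠ 0`, for instance a Teichmüller lift.  Let `Φ_j`, `j ∈ J`, be the mod
`p` eigenforms which are not Eisenstein, of levels `lvl j`, with eigenvalues `a_j(v) = Φ_j(T_v)`; by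
Scholze there are representations `H_j : G → GL_2(k)` attached to them.  Let `R_i`, `i ∈ I`, be
irreducible representations `G → GL_2(k)` with determinant `q_v` on the Frobenius elements at `v`.  The
Euler products of the lifted eigenvalues of Frobenius have boundary functions `l_i`, `l_j` on the line
`Re s = 1`.

The theorem: for every set `Λ` of levels which is stable under complex conjugation, `R_i` satisfies the
trace identity of Q1 for an eigenform with level in `Λ` if and only if `l_i(t)` is algebraic over the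
field generated by countably many constants, the `l_j(t)` with `lvl j ∈ Λ`, `t` and the `p^{-it}`; if the
conductor `N` of `R_i` is equal to its conjugate, `Λ = {N}` gives the assertion of Q1 for `R_i`.  The
values of the representations which are not modular of any level are algebraically independent.
Chebotarev's theorem is not assumed.
-/

set_option autoImplicit false

namespace Pool.Agent.Results.MP_94f623_nt.LevelsOnTheEdge

open MeasureTheory NumberField IsDedekindDomain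
open Pool.Agent.R629.NF
open Pool.Agent.R629.SP
open Pool.Agent.TH339.MP (nm pr)

/-- The ideal `s⁻¹(N)`. -/
noncomputable def conjIdeal {K Ω : Type} [Field K] [NumberField K] [IsGalois ℚ K] [Field Ω]
    [CharZero Ω] [IsAlgClosure ℚ Ω] [Algebra K Ω] (s : Gal(Ω/ℚ)) (N : Ideal (𝓞 K)) :
    Ideal (𝓞 K) :=
  N.comap (MulSemiringAction.toRingHom Gal(K/ℚ) (𝓞 K) (AlgEquiv.restrictNormalHom K s))

/-- **Serre's conjecture over imaginary quadratic fields, levels, and values on the edge.** -/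
theorem result {K Ω : Type} [Field K] [NumberField K] [IsGalois ℚ K]
    [NumberField.IsTotallyComplex K] (_ : Module.finrank ℚ K = 2)
    (_ : NumberField.classNumber K = 1)
    [Field Ω] [CharZero Ω] [IsAlgClosure ℚ Ω] [Algebra K Ω]
    {p : ℕ} [Fact p.Prime] {k : Type} [Field k] [IsAlgClosed k] [CharP k p]
    {S₀ : Finset ℕ} (hS₀ : Unram K S₀)
    {F : HeightOneSpectrum (𝓞 K) → GalOf K Ω} (hF : ∀ v, IsFrobAt Ω v (F v : Gal(Ω/ℚ)))
    {θ : k → ℂ} (hθ : Function.Injective θ) (hθ1 : ∀ z : k, z ≠ 0 → ‖θ z‖ = 1)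
    {J : Type} [Countable J] {lvl : J → Ideal (𝓞 K)}
    {a : J → HeightOneSpectrum (𝓞 K) → k} {H : J → GalOf K Ω →* GL (Fin 2) k}
    {SJ : J → Finset ℕ} (hSJ : ∀ j, S₀ ⊆ SJ j)
    (hH : ∀ j, IsSmooth (H j)) (hHirr : ∀ j, (rep (H j)).IsIrreducible)
    (hatt : ∀ j, IsAttached F (SJ j) (a j) (H j))
    (hstab : ∀ j (s : Gal(Ω/ℚ)), ∃ j', lvl j' = conjIdeal s (lvl j) ∧
      Nonempty ((rep ((H j).comp (conjBy K s))).Equiv (rep (H j'))))
    {I : Type} [Countable I] {R : I → GalOf K Ω →* GL (Fin 2) k}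
    {SI : I → Finset ℕ} (hSI : ∀ i, S₀ ⊆ SI i)
    (hR : ∀ i, IsSmooth (R i)) (hRirr : ∀ i, (rep (R i)).IsIrreducible)
    (hdet : ∀ i v, (pr v : ℕ) ∉ SI i → (R i (F v)).val.det = ((nm v : ℕ) : k))
    (hnc : ∀ i i', i' ≠ i → ¬ IsConjugate (conjBy (Ω := Ω) K) (R i) (R i')) :
    ((∀ i, ∃ l : ℝ → ℂ, IsEdgeOf (SI i) 2 (frobLift θ F (R i)) 0 l) ∧
      ∀ j, ∃ l : ℝ → ℂ, IsEdgeOf (SJ j) 2 (frobLift θ F (H j)) 0 l) ∧
    ∀ (l : I → ℝ → ℂ) (lH : J → ℝ → ℂ),
      (∀ i, IsEdgeOf (SI i) 2 (frobLift θ F (R i)) 0 (l i)) →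
      (∀ j, IsEdgeOf (SJ j) 2 (frobLift θ F (H j)) 0 (lH j)) →
      (∀ (i : I) (Λ : Set (Ideal (𝓞 K))),
        (∀ s : Gal(Ω/ℚ), ∀ N ∈ Λ, conjIdeal s N ∈ Λ) →
        [∃ j, lvl j ∈ Λ ∧ Nonempty ((rep (R i)).Equiv (rep (H j))),
          ∃ j, lvl j ∈ Λ ∧ ∀ v, (pr v : ℕ) ∉ SI i ∪ SJ j → (R i (F v)).val.trace = a j v,
          ∃ j, lvl j ∈ Λ ∧ ∃ T : Finset ℕ, ∀ v, (pr v : ℕ) ∉ T → (R i (F v)).val.trace = a j v,
          DependentOn (l i) fun j : {j // lvl j ∈ Λ} => lH j,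
          ¬ IndependentOf (l i) fun j : {j // lvl j ∈ Λ} => lH j].TFAE) ∧
      (∀ k' : Subfield ℂ, (k' : Set ℂ).Countable → ∀ᵐ t : ℝ, AlgebraicIndependent
        (IntermediateField.adjoin k' (valSet (fun j => lH j t) t))
        fun i : {i : I // ¬ IsIn H (R i)} => l i t) ∧
      ((∀ i, IsIn H (R i)) ↔
        ∃ k' : Subfield ℂ, (k' : Set ℂ).Countable ∧ ∀ᵐ t : ℝ, ∀ i,
          IsAlgebraic (IntermediateField.adjoin k' (valSet (fun j => lH j t) t)) (l i t)) := by
  have hst : ∀ j (s : Gal(Ω/ℚ)), IsIn H ((H j).comp (conjBy K s)) := fun j s => by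
    obtain ⟨j', -, h⟩ := hstab j s
    exact ⟨j', h⟩
  refine ⟨⟨fun i => exists_edgeOf_le (unram_mono hS₀ (hSI i)) (frobLift_sys hθ1 F (R i) _),
    fun j => exists_edgeOf_le (unram_mono hS₀ (hSJ j)) (frobLift_sys hθ1 F (H j) _)⟩,
    fun l lH hl hlH => ?_⟩
  obtain ⟨h1, h2⟩ := main_conc hS₀ hF hθ hθ1 hR hRirr hH hHirr hst hSI hSJ hl hlH
  refine ⟨fun i Λ hΛ => conc_levels hS₀ hF hθ hθ1 hSJ hH hHirr hatt hstab
      hSI hR hRirr hdet hl hlH i Λ hΛ, h2 hnc, ?_⟩
  rw [← dependent_all]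
  exact forall_congr' fun i => (h1 i).2.1

end Pool.Agent.Results.MP_94f623_nt.LevelsOnTheEdge
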